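import Pool.Agent.Helper5.FRD.Goals

/-!
Project FRD (MP_79b960_co), packet DESC: the descent on arcs.
-/

set_option autoImplicit false

namespace Pool.Agent.Helper78.FRD.DESC

open Finset
open Pool.Agent.Helper5.FRC Pool.Agent.Helper5.FRD

theorem third : ∀ i j : Fin 4, i ≠ j → i ≠ 3 → j ≠ 3 → ∃ k : Fin 4, i ≠ k ∧ j ≠ k ∧ k ≠ 3 := by
  decide

theorem mem_arc {V : Type} [DecidableEq V] (n : Equiv.Perm V) (z : V) (a b j : ℕ)
    (h1 : 2 * a ≤ j) (h2 : j ≤ 2 * b + 1) : (n ^ j) z ∈ Arc n z a b := by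
  unfold Arc
  exact mem_image_of_mem _ (mem_Icc.mpr ⟨h1, h2⟩)

theorem arc_sub {V : Type} [DecidableEq V] (n : Equiv.Perm V) (z : V) (a b a' b' : ℕ)
    (h1 : a ≤ a') (h2 : b' ≤ b) : Arc n z a' b' ⊆ Arc n z a b := by
  unfold Arc
  apply image_subset_image
  apply Icc_subset_Icc <;> omega

theorem Tl.mono {V : Type} [DecidableEq V] {A Z X X' : Finset V} {t p : V → V} {v e : V}
    {U : Finset V} (h : Tl A Z X t p v e U) (hX : X' ⊆ X) (hv : v ∈ X') :
    Tl A Z X' t p v e U := by
  obtain ⟨h1, h2, h3, h4⟩ := h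
  refine ⟨h1, ?_, ?_, h4⟩
  · intro x hx
    refine ⟨(h2 x hx).1, fun hz hx' => ?_⟩
    by_cases hxX : x ∈ X
    · exfalso
      have : x ∈ U ∩ X := mem_inter.mpr ⟨hx, hxX⟩
      rw [h3, mem_singleton] at this
      rw [this] at hx'
      exact hx' hv
    · exact (h2 x hx).2 hz hxX
  · apply Subset.antisymm
    · intro x hx
      rw [← h3]
      rw [mem_inter] at hx ⊢
      exact ⟨hx.1, hX hx.2⟩
    · intro x hx
      rw [mem_singleton] at hx
      subst hx
      have : x ∈ U ∩ X := by rw [h3]; exact mem_singleton_self x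
      exact mem_inter.mpr ⟨(mem_inter.mp this).1, hv⟩

theorem Tl.start {V : Type} [DecidableEq V] {A Z X : Finset V} {t p : V → V} {v e : V}
    {U : Finset V} (h : Tl A Z X t p v e U) : v ∈ U := by
  have : v ∈ U ∩ X := by rw [h.2.2.1]; exact mem_singleton_self v
  exact (mem_inter.mp this).1

theorem Tl.fin {V : Type} [DecidableEq V] {A Z X : Finset V} {t p : V → V} {v e : V}
    {U : Finset V} (h : Tl A Z X t p v e U) : e ∈ U := by
  have : e ∈ U \ Z := by rw [h.2.2.2]; exact mem_singleton_self e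
  exact (mem_sdiff.mp this).1

/-- two tails starting at `s` and `p s` form a closed set -/
theorem join {V : Type} [DecidableEq V] {A Z X : Finset V} {t p : V → V} {s v e g : V}
    {U₁ U : Finset V} (h₁ : Tl A Z X t p s e U₁) (h : Tl A Z X t p v g U) (hv : p s = v)
    (hs : p v = s) : Cl Z ∅ t p (U₁ ∪ U) ∧ (U₁ ∪ U) \ Z = {e, g} := by
  refine ⟨?_, ?_⟩
  · intro x hx
    rw [mem_union] at hx
    rcases hx with hx | hx
    · refine ⟨mem_union_left _ (h₁.2.1 x hx).1, fun hz _ => ?_⟩
      by_cases hxX : x ∈ X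
      · have : x ∈ U₁ ∩ X := mem_inter.mpr ⟨hx, hxX⟩
        rw [h₁.2.2.1, mem_singleton] at this
        rw [this, hv]
        exact mem_union_right _ (Tl.start h)
      · exact mem_union_left _ ((h₁.2.1 x hx).2 hz hxX)
    · refine ⟨mem_union_right _ (h.2.1 x hx).1, fun hz _ => ?_⟩
      by_cases hxX : x ∈ X
      · have : x ∈ U ∩ X := mem_inter.mpr ⟨hx, hxX⟩
        rw [h.2.2.1, mem_singleton] at this
        rw [this, hs]
        exact mem_union_left _ (Tl.start h₁)
      · exact mem_union_right _ ((h.2.1 x hx).2 hz hxX)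
  · rw [union_sdiff_distrib, h₁.2.2.2, h.2.2.2]
    rfl

theorem t (h1 : ArcqStmt) (h2 : DichStmt) (h3 : UniqStmt) (h4 : ChainStmt) (h5 : SubmStmt) :
    DescStmt := by
  intro V _ _ n A t C Z hF p t' hAlg hRed hstar z hz hpz
  obtain ⟨hn, hPA, hBl, hCir, hOdd, hDis, hCZ, hEv, hDZ, hA⟩ := hF
  have hZA : Z ⊆ A := by rw [hA]; exact subset_union_right
  have hCA : ∀ i, C i ⊆ A \ Z := by
    intro i x hx
    rw [mem_sdiff]
    refine ⟨?_, fun hxz => (disjoint_left.mp (hDZ i)) hx hxz⟩
    rw [hA]
    exact mem_union_left _ (mem_biUnion.mpr ⟨i, mem_univ i, hx⟩)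
  have hpos : ∀ j, (n ^ j) z ∈ Z := by
    intro j
    induction j with
    | zero => simpa using hz
    | succ j ih =>
      rw [pow_succ', Equiv.Perm.mul_apply]
      exact hCZ.2.1 _ ih
  have hpp := (h1 V n Z p hCZ hEv hAlg z hz hpz).1
  have harcZ : ∀ a b, Arc n z a b ⊆ Z := by
    intro a b x hx
    unfold Arc at hx
    rw [mem_image] at hx
    obtain ⟨j, -, rfl⟩ := hx
    exact hpos j
  have harcp : ∀ a b, 2 * b + 1 < Z.card → ∀ x ∈ Arc n z a b, p x ∈ Arc n z a b := by
    intro a b hb x hx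
    unfold Arc at hx
    rw [mem_image] at hx
    obtain ⟨j, hj, rfl⟩ := hx
    rw [mem_Icc] at hj
    rcases Nat.even_or_odd' j with ⟨c, rfl | rfl⟩
    · rw [(hpp c (by omega)).1]
      exact mem_arc n z a b _ (by omega) (by omega)
    · rw [(hpp c (by omega)).2]
      exact mem_arc n z a b _ (by omega) (by omega)
  have key : ∀ m a b, b - a ≤ m → a < b → 2 * b + 1 < Z.card →
      (∃ i j, i ≠ j ∧ i ≠ 3 ∧ j ≠ 3 ∧ ∃ e ∈ C i, ∃ f ∈ C j,
        (∃ U, Tl A Z (Arc n z a b) t p ((n ^ (2 * a)) z) e U) ∧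
        ∃ U, Tl A Z (Arc n z a b) t p ((n ^ (2 * b + 1)) z) f U) →
      ∃ a b, a < b ∧ 2 * b + 1 < Z.card ∧ ∃ i j k, i ≠ j ∧ i ≠ k ∧ j ≠ k ∧ i ≠ 3 ∧ j ≠ 3 ∧
        k ≠ 3 ∧ ∃ e ∈ C i, ∃ f ∈ C j, ∃ g ∈ C k, ∃ h ∈ C 3,
        (∃ U, Tl A Z (Arc n z a b) t p ((n ^ (2 * a)) z) e U) ∧
        (∃ U, Tl A Z (Arc n z a b) t p ((n ^ (2 * b + 1)) z) f U) ∧
        ∃ U, Lk A Z (Arc n z a b) t p g h U := by
    intro m
    induction m with
    | zero => intro a b hm hab; omega
    | succ m ih =>
      intro a b hm hab hb hex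
      obtain ⟨i, j, hij, hi3, hj3, e, he, f, hf, ⟨U₁, hU₁⟩, ⟨U₂, hU₂⟩⟩ := hex
      obtain ⟨k, hik, hjk, hk3⟩ := third i j hij hi3 hj3
      -- the vertex `g`
      have hdm : dm t' (C k) % 2 = (C k).card % 2 :=
        (h5 V (A \ Z) (C k) (C k) t' hRed.1 (hCA k) (hCA k)).2.2
      have hdm1 : 0 < dm t' (C k) := by
        have := Nat.odd_iff.mp (hOdd k)
        omega
      unfold dm at hdm1
      rw [card_pos] at hdm1
      obtain ⟨g, hg⟩ := hdm1
      rw [mem_filter] at hg
      obtain ⟨hgk, hgt⟩ := hg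
      have hgA : g ∈ A \ Z := hCA k hgk
      have hg3 : t' g ∈ C 3 := by
        rcases hstar k hk3 g hgk with h | h
        · exact absurd h hgt
        · exact h
      rcases h2 V A Z (Arc n z a b) t p hPA hZA hAlg.1 (harcZ a b) (harcp a b hb) g hgA with
        ⟨f', hf'A, hf'g, U, hU, -⟩ | ⟨v, hv, U, hU, -⟩
      · -- a link
        have hcl : Cl Z ∅ t p U := by
          intro x hx
          refine ⟨(hU.2.1 x hx).1, fun hxz _ => (hU.2.1 x hx).2 hxz ?_⟩
          intro hxX
          have : x ∈ U ∩ Arc n z a b := mem_inter.mpr ⟨hx, hxX⟩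
          rw [hU.2.2.1] at this
          exact absurd this (notMem_empty x)
        have hgU : g ∈ U := by
          have : g ∈ U \ Z := by rw [hU.2.2.2]; exact mem_insert_self _ _
          exact (mem_sdiff.mp this).1
        have h6 := (h4 V A Z t p t' hPA hZA hAlg.1 hRed g hgA).2.2 U hU.1 hcl hgU
        have h7 : t' g ∈ U \ Z := mem_sdiff.mpr ⟨h6, (mem_sdiff.mp (hRed.1 g hgA).1).2⟩
        rw [hU.2.2.2, mem_insert, mem_singleton] at h7
        have h8 : t' g = f' := h7.resolve_left (hRed.1 g hgA).2.2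
        refine ⟨a, b, hab, hb, i, j, k, hij, hik, hjk, hi3, hj3, hk3, e, he, f, hf, g, hgk,
          t' g, hg3, ⟨U₁, hU₁⟩, ⟨U₂, hU₂⟩, U, ?_⟩
        rw [h8]
        exact hU
      · -- a tail
        have hvX := hv
        unfold Arc at hv
        rw [mem_image] at hv
        obtain ⟨jj, hjj, rfl⟩ := hv
        rw [mem_Icc] at hjj
        have huniq := h3 V A Z (Arc n z a b) t p hPA hZA hAlg.1 (harcZ a b) (harcp a b hb)
        have hne : ∀ i', i' ≠ k → ∀ x ∈ C i', x ≠ g := by
          intro i' hi' x hx hxg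
          rw [hxg] at hx
          exact (disjoint_left.mp (hDis i' k hi')) hx hgk
        -- the chain of an end cannot be `{x, g}`
        have hcon : ∀ i', i' ≠ k → i' ≠ 3 → ∀ x ∈ C i', ∀ U' ⊆ A, Cl Z ∅ t p U' →
            U' \ Z = {x, g} → False := by
          intro i' hi' hi3' x hx U' hU'A hcl hU'
          have hxA : x ∈ A \ Z := hCA i' hx
          have hxU : x ∈ U' := by
            have : x ∈ U' \ Z := by rw [hU']; exact mem_insert_self _ _
            exact (mem_sdiff.mp this).1
          have h6 := (h4 V A Z t p t' hPA hZA hAlg.1 hRed x hxA).2.2 U' hU'A hcl hxU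
          have h7 : t' x ∈ U' \ Z := mem_sdiff.mpr ⟨h6, (mem_sdiff.mp (hRed.1 x hxA).1).2⟩
          rw [hU', mem_insert, mem_singleton] at h7
          have h8 : t' x = g := h7.resolve_left (hRed.1 x hxA).2.2
          rcases hstar i' hi3' x hx with h | h
          · rw [h8] at h
            exact (disjoint_left.mp (hDis i' k hi')) h hgk
          · rw [h8] at h
            exact (disjoint_left.mp (hDis 3 k hk3.symm)) h hgk
        rcases Nat.even_or_odd' jj with ⟨c, rfl | rfl⟩
        · -- an even position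
          rcases Nat.lt_or_ge a c with hac | hac
          · rcases Nat.lt_or_ge c b with hcb | hcb
            · -- the smaller arc `c, b`
              apply ih c b (by omega) hcb hb
              refine ⟨k, j, hjk.symm, hk3, hj3, g, hgk, f, hf, ⟨U, ?_⟩, ⟨U₂, ?_⟩⟩
              · exact Tl.mono hU (arc_sub n z a b c b hac.le le_rfl)
                  (mem_arc n z c b _ le_rfl (by omega))
              · exact Tl.mono hU₂ (arc_sub n z a b c b hac.le le_rfl)
                  (mem_arc n z c b _ (by omega) le_rfl)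
            · -- `c = b`: the partner of the last vertex
              have hcb' : c = b := by omega
              subst hcb'
              exfalso
              have e1 := hpp c hb
              obtain ⟨hcl, hUZ⟩ := join hU₂ hU e1.2 e1.1
              exact hcon j hjk hj3 f hf _ (union_subset hU₂.1 hU.1) hcl hUZ
          · -- `c = a`: the first vertex
            have hac' : c = a := by omega
            subst hac'
            exfalso
            exact hne i hik e he ((huniq _ _ e g U₁ U hU₁ hU).mp rfl)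
        · -- an odd position
          rcases Nat.lt_or_ge a c with hac | hac
          · rcases Nat.lt_or_ge c b with hcb | hcb
            · -- the smaller arc `a, c`
              apply ih a c (by omega) hac (by omega)
              refine ⟨i, k, hik, hi3, hk3, e, he, g, hgk, ⟨U₁, ?_⟩, ⟨U, ?_⟩⟩
              · exact Tl.mono hU₁ (arc_sub n z a b a c le_rfl hcb.le)
                  (mem_arc n z a c _ le_rfl (by omega))
              · exact Tl.mono hU (arc_sub n z a b a c le_rfl hcb.le)
                  (mem_arc n z a c _ (by omega) le_rfl)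
            · have hcb' : c = b := by omega
              subst hcb'
              exfalso
              exact hne j hjk f hf ((huniq _ _ f g U₂ U hU₂ hU).mp rfl)
          · have hac' : c = a := by omega
            subst hac'
            exfalso
            have e1 := hpp c (by omega)
            obtain ⟨hcl, hUZ⟩ := join hU₁ hU e1.1 e1.2
            exact hcon i hik hi3 e he _ (union_subset hU₁.1 hU.1) hcl hUZ
  rintro ⟨a, b, hab, hb, hex⟩
  exact key (b - a) a b le_rfl hab hb hex

end Pool.Agent.Helper78.FRD.DESC
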